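import Mathlib
import Pool.Agent.V1152.UnitaryMain

/-!
# The domination number of unitary Cayley graphs and Jacobsthal's function
-/

set_option autoImplicit false

namespace Pool.Agent.Results.MP_6d1f6b_co.DominationGap

open Pool.Agent.V1152.Unitary

/-- For all `k` and `j` there is an integer `n > 1` with `ω(n) ≥ k` and `γ(X_n) ≤ g(n) - j`. -/
theorem result : ∀ k j : ℕ, ∃ n : ℕ, 1 < n ∧ k ≤ n.primeFactors.card ∧
    domNumber (unitaryCayley n) + j ≤ jacobsthal n := by
  intro k j
  obtain ⟨n, h1, h2, h3⟩ := exists_gap (max k j)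
  have h4 := le_max_left k j
  have h5 := le_max_right k j
  have : Fact (1 < n) := ⟨h1⟩
  have : NeZero n := ⟨by omega⟩
  have h6 := domNumber_le_total (unitaryCayley n) (exists_adj n h1)
  exact ⟨n, h1, by omega, by omega⟩

end Pool.Agent.Results.MP_6d1f6b_co.DominationGap
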